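import Pool.Agent.Helper13.R6.SheetA

/-! Row PR2 of sheet A (rank six, MP_798d7d_nt). -/

set_option autoImplicit false

namespace Pool.Helper13.R6

/-- the vectors of the plane of `x'` are in the lattice of `x` modulo `D` -/
lemma pr2_dvd {D : ℕ} {x x' : A4} (hrel : Rel D x x') {v : V4} (hv : InP x' v) (i j k : Fin 4) :
    (D : ℤ) ∣ w3 x v i j k := by
  obtain ⟨κ, hκ, hd⟩ := hrel
  have h0 : w3 x' v i j k = 0 := hv i j k
  have h1 : (D : ℤ) ∣ κ * w3 x v i j k := by
    have e1 : κ * w3 x v i j k = w3 x' v i j k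
        - ((x' i j - κ * x i j) * v k - (x' i k - κ * x i k) * v j
          + (x' j k - κ * x j k) * v i) := by
      unfold w3
      ring
    rw [e1, h0]
    refine dvd_sub (dvd_zero _) (dvd_add (dvd_sub ?_ ?_) ?_)
    · exact (hd i j).mul_right _
    · exact (hd i k).mul_right _
    · exact (hd j k).mul_right _
  exact hκ.symm.dvd_of_dvd_mul_left h1

/-- one dyadic class -/
lemma pr2_class {R X e σ τ ρ : ℝ} (hR : 1 ≤ R) (hX : 0 < X) (he : 0 < e) (hτ : 0 < τ)
    (h1 : e ≤ ρ) (h2 : ρ ≤ σ) (h3 : τ ≤ 3 * R * (2 * ρ)) :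
    (R * (2 * ρ) / τ) * (1 + R * (2 * ρ) * τ / X) * (R * X / (ρ * τ) + R ^ 2 * X / ρ ^ 2) ≤
      4 * GG e R X σ τ := by
  have hR0 : 0 < R := by linarith
  have hρ : 0 < ρ := by linarith
  have hσ : 0 < σ := by linarith
  have e1 : (R * (2 * ρ) / τ) * (1 + R * (2 * ρ) * τ / X) * (R * X / (ρ * τ) + R ^ 2 * X / ρ ^ 2) =
      2 * (R ^ 2 * X / τ ^ 2) + 2 * (R ^ 3 * X / (τ * ρ)) + 4 * (R ^ 3 * ρ / τ) + 4 * R ^ 4 := by
    field_simp
    ring
  rw [e1]
  have hm : max e (τ / (6 * R)) ≤ ρ := by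
    refine max_le h1 ?_
    rw [div_le_iff₀ (by positivity)]
    linarith
  have hm0 : 0 < max e (τ / (6 * R)) := lt_max_of_lt_left he
  have hA : R ^ 3 * X / (τ * ρ) ≤ R ^ 3 * X / (τ * max e (τ / (6 * R))) := by
    refine div_le_div_of_nonneg_left (by positivity) (by positivity) ?_
    exact mul_le_mul_of_nonneg_left hm hτ.le
  have hB : R ^ 3 * ρ / τ ≤ R ^ 3 * σ / τ := by
    refine div_le_div_of_nonneg_right ?_ hτ.le
    exact mul_le_mul_of_nonneg_left h2 (by positivity)
  have hc1 : 0 ≤ R * X / (σ * τ) := by positivity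
  have hc2 : 0 ≤ R ^ 2 * X / σ ^ 2 := by positivity
  have hc3 : 0 ≤ R ^ 2 * X / τ ^ 2 := by positivity
  have hc4 : 0 ≤ R ^ 3 * X / (τ * max e (τ / (6 * R))) := by positivity
  unfold GG
  linarith

theorem st_PR2 (hPR1 : ST_PR1) (hLAT : ST_LAT) (hCP : ST_CP) (hRIN : ST_RIN) (hALG : ST_ALG) :
    ST_PR2 := by
  classical
  obtain ⟨C1, hC1, P1⟩ := hPR1
  obtain ⟨C2, hC2, P2⟩ := hLAT
  refine ⟨C1 * (35 + 4 * C2), by positivity, ?_⟩
  intro d e e' R X L W hX hL hXL x s t h g D hNX hR hRd hD hXD S hS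
  have hpos := W.pos
  have hR1 := W.R1
  have hR0 : 0 < R := by linarith
  have he0 := W.e0
  obtain ⟨hσ0, hσt, hst, -, -, -⟩ := hRIN d x s t hpos hNX.prim hR
  have hτ0 : 0 < nv (fun i => (d i)⁻¹) h :=
    (hRIN (fun i => (d i)⁻¹) (stx x) h g (fun i => inv_pos.2 (hpos i))
      (hALG.2.2.2.2.2.1 x hNX.plu hNX.prim) hRd).1
  have hL2 := P2 d X R x s t h g D hpos W.prod hR1 hX hNX hR hRd hD hXD
  have hP1 := P1 d X R x s t h g D hpos W.prod hR1 hX hNX hR hRd hD hXD
  generalize hτe : nv (fun i => (d i)⁻¹) h = τ at hτ0 hL2 hP1 ⊢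
  -- the first vector of a reduced basis of each element
  have hch : ∀ x' : A4, ∃ s' : V4, x' ∈ S → ∃ t', Red d x' s' t' ∧ nv d s' ≤ nv d s := by
    intro x'
    by_cases hx : x' ∈ S
    · obtain ⟨-, -, s', t', h1, h2⟩ := hS x' hx
      exact ⟨s', fun _ => ⟨t', h1, h2⟩⟩
    · exact ⟨0, fun h => absurd h hx⟩
  choose f hf using hch
  set V : Finset V4 := S.image f with hV
  -- properties of the vectors
  have hVp : ∀ v ∈ V, (∀ i j k, (D : ℤ) ∣ w3 x v i j k) ∧ nv d v ≤ nv d s ∧ v ≠ 0 ∧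
      e ≤ nv d v := by
    intro v hv
    obtain ⟨x', hx', rfl⟩ := Finset.mem_image.1 hv
    obtain ⟨t', hred, hle⟩ := hf x' hx'
    obtain ⟨hN', hrel, -⟩ := hS x' hx'
    have hin : InP x' (f x') := by
      intro i j k
      have hw := hred.wd
      generalize f x' = s' at hw
      unfold w3
      rw [hw]
      unfold wdg
      ring
    refine ⟨fun i j k => pr2_dvd hrel hin i j k, hle, hred.s0, ?_⟩
    obtain ⟨-, -, -, -, -, hn⟩ := hRIN d x' (f x') t' hpos hN'.prim hred
    obtain ⟨-, -, -, hl⟩ := hn hN'.nz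
    obtain ⟨i, j, hij, h1, h2⟩ := W.he
    exact hl e i j hij h1 h2
  -- the count for a given first vector
  have hfib : ∀ v ∈ V, ((S.filter fun x' => f x' = v).card : ℝ) ≤
      C1 * (R * X / (nv d v * τ) + R ^ 2 * X / nv d v ^ 2) := by
    intro v hv
    have hle := (hVp v hv).2.1
    have h1 := hP1 v hle (S.filter fun x' => f x' = v) ?_
    · exact h1
    · intro x' hx'
      obtain ⟨hx1, hx2⟩ := Finset.mem_filter.1 hx'
      obtain ⟨hN', hrel, -⟩ := hS x' hx1
      obtain ⟨t', hred, -⟩ := hf x' hx1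
      exact ⟨hN', hrel, t', hx2 ▸ hred⟩
  have hcard : (S.card : ℝ) ≤ ∑ v ∈ V, C1 * (R * X / (nv d v * τ) + R ^ 2 * X / nv d v ^ 2) := by
    have h1 : S.card = ∑ v ∈ V, (S.filter fun x' => f x' = v).card :=
      Finset.card_eq_sum_card_image f S
    have h2 : (S.card : ℝ) = ∑ v ∈ V, ((S.filter fun x' => f x' = v).card : ℝ) := by
      rw [h1]
      push_cast
      rfl
    rw [h2]
    exact Finset.sum_le_sum hfib
  have hGG0 : 0 ≤ GG e R X (nv d s) τ := by
    have : 0 < max e (τ / (6 * R)) := lt_max_of_lt_left he0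
    unfold GG
    positivity
  -- the vectors in the plane
  have hA : ∑ v ∈ V.filter (fun v => InP x v),
      C1 * (R * X / (nv d v * τ) + R ^ 2 * X / nv d v ^ 2) ≤ 35 * C1 * GG e R X (nv d s) τ := by
    have heq : ∀ v ∈ V.filter (fun v => InP x v), nv d v = nv d s := by
      intro v hv
      obtain ⟨hv1, hv2⟩ := Finset.mem_filter.1 hv
      obtain ⟨-, h2, h3, -⟩ := hVp v hv1
      exact le_antisymm h2 (hR.mn v hv2 h3)
    have h35 : ((V.filter (fun v => InP x v)).card : ℝ) ≤ 35 := by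
      have h1 := (hCP d x s t hpos hNX.prim hR (nv d s) hσ0.le).1 (V.filter (fun v => InP x v)) ?_
      · refine h1.trans ?_
        have ht0 : 0 < nv d t := lt_of_lt_of_le hσ0 hσt
        have h2 : 6 * nv d s / nv d s = 6 := by
          rw [mul_div_assoc, div_self hσ0.ne', mul_one]
        have h3 : 4 * nv d s / nv d t ≤ 4 := by
          rw [div_le_iff₀ ht0]
          linarith
        have h4 : 0 ≤ 4 * nv d s / nv d t := by positivity
        rw [h2]
        nlinarith
      · intro v hv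
        exact ⟨(Finset.mem_filter.1 hv).2, (heq v hv).le⟩
    have h1 : ∑ v ∈ V.filter (fun v => InP x v),
        C1 * (R * X / (nv d v * τ) + R ^ 2 * X / nv d v ^ 2) =
        ((V.filter (fun v => InP x v)).card : ℝ) *
          (C1 * (R * X / (nv d s * τ) + R ^ 2 * X / nv d s ^ 2)) := by
      rw [Finset.sum_congr rfl (fun v hv => by rw [heq v hv]), Finset.sum_const, nsmul_eq_mul]
    rw [h1]
    have hb0 : 0 ≤ R * X / (nv d s * τ) + R ^ 2 * X / nv d s ^ 2 := by positivity
    have hb : R * X / (nv d s * τ) + R ^ 2 * X / nv d s ^ 2 ≤ GG e R X (nv d s) τ := by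
      have : 0 < max e (τ / (6 * R)) := lt_max_of_lt_left he0
      have hc3 : 0 ≤ R ^ 2 * X / τ ^ 2 := by positivity
      have hc4 : 0 ≤ R ^ 3 * X / (τ * max e (τ / (6 * R))) := by positivity
      have hc5 : 0 ≤ R ^ 3 * nv d s / τ := by positivity
      have hc6 : 0 ≤ R ^ 4 := by positivity
      unfold GG
      linarith
    calc ((V.filter (fun v => InP x v)).card : ℝ) *
          (C1 * (R * X / (nv d s * τ) + R ^ 2 * X / nv d s ^ 2))
        ≤ 35 * (C1 * GG e R X (nv d s) τ) := by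
          refine mul_le_mul h35 (mul_le_mul_of_nonneg_left hb hC1.le) (by positivity) (by norm_num)
      _ = 35 * C1 * GG e R X (nv d s) τ := by ring
  -- the vectors outside of the plane
  have hσL : nv d s < e * 2 ^ L := by
    have h1 : nv d s * nv d s ≤ 2 * X := by
      calc nv d s * nv d s ≤ nv d s * nv d t := mul_le_mul_of_nonneg_left hσt hσ0.le
        _ ≤ 2 * nx d x := hst
        _ ≤ 2 * X := by linarith [hNX.hi]
    have h2 : 0 < e * 2 ^ L := by positivity
    by_contra hcon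
    have hcon' : e * 2 ^ L ≤ nv d s := not_lt.1 hcon
    have : (e * 2 ^ L) ^ 2 ≤ nv d s * nv d s := by nlinarith
    linarith
  have hjx : ∀ v : V4, ∃ j : ℕ, v ∈ V → j < L ∧ e * 2 ^ j ≤ nv d v ∧ nv d v < e * 2 ^ (j + 1) := by
    intro v
    by_cases hv : v ∈ V
    · obtain ⟨-, h2, -, h4⟩ := hVp v hv
      have h5 : (1 : ℝ) ≤ nv d v / e := by rwa [one_le_div he0]
      obtain ⟨j, hj1, hj2⟩ := exists_nat_pow_near h5 (by norm_num : (1 : ℝ) < 2)
      have hj1' : e * 2 ^ j ≤ nv d v := by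
        rw [le_div_iff₀ he0] at hj1
        linarith
      have hj2' : nv d v < e * 2 ^ (j + 1) := by
        rw [div_lt_iff₀ he0] at hj2
        linarith
      refine ⟨j, fun _ => ⟨?_, hj1', hj2'⟩⟩
      by_contra hcon
      have hLj : L ≤ j := not_lt.1 hcon
      have : e * 2 ^ L ≤ e * 2 ^ j :=
        mul_le_mul_of_nonneg_left (pow_le_pow_right₀ (by norm_num) hLj) he0.le
      linarith
    · exact ⟨0, fun h => absurd h hv⟩
  choose k hk using hjx
  have hB : ∑ v ∈ V.filter (fun v => ¬ InP x v),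
      C1 * (R * X / (nv d v * τ) + R ^ 2 * X / nv d v ^ 2) ≤
        L * (4 * C1 * C2 * GG e R X (nv d s) τ) := by
    have hmaps : ∀ v ∈ V.filter (fun v => ¬ InP x v), k v ∈ Finset.range L := by
      intro v hv
      exact Finset.mem_range.2 (hk v (Finset.mem_filter.1 hv).1).1
    rw [← Finset.sum_fiberwise_of_maps_to hmaps]
    have hone : ∀ j ∈ Finset.range L,
        ∑ v ∈ (V.filter (fun v => ¬ InP x v)).filter (fun v => k v = j),
          C1 * (R * X / (nv d v * τ) + R ^ 2 * X / nv d v ^ 2) ≤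
            4 * C1 * C2 * GG e R X (nv d s) τ := by
      intro j _
      rcases ((V.filter (fun v => ¬ InP x v)).filter (fun v => k v = j)).eq_empty_or_nonempty
        with hem | hne
      · rw [hem, Finset.sum_empty]
        positivity
      · set B := (V.filter (fun v => ¬ InP x v)).filter (fun v => k v = j) with hBdef
        have hρ0 : 0 < e * 2 ^ j := by positivity
        have hBp : ∀ v ∈ B, v ∈ V ∧ ¬ InP x v ∧ e * 2 ^ j ≤ nv d v ∧ nv d v < 2 * (e * 2 ^ j) := by
          intro v hv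
          obtain ⟨hv1, hv2⟩ := Finset.mem_filter.1 hv
          obtain ⟨hv3, hv4⟩ := Finset.mem_filter.1 hv1
          obtain ⟨-, h6, h7⟩ := hk v hv3
          rw [hv2] at h6 h7
          refine ⟨hv3, hv4, h6, ?_⟩
          rw [pow_succ] at h7
          linarith
        obtain ⟨v0, hv0⟩ := hne
        have hρσ : e * 2 ^ j ≤ nv d s := by
          obtain ⟨h1, -, h3, -⟩ := hBp v0 hv0
          exact h3.trans (hVp v0 h1).2.1
        obtain ⟨hn1, hn2⟩ := hL2.2 (2 * (e * 2 ^ j)) (by linarith) (by linarith) B (fun v hv => by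
          obtain ⟨h1, h2, -, h4⟩ := hBp v hv
          exact ⟨(hVp v h1).1, h2, h4.le⟩)
        have hτρ := hn1 ⟨v0, hv0⟩
        have heρ : e ≤ e * 2 ^ j := by
          have : (1 : ℝ) ≤ 2 ^ j := one_le_pow₀ (by norm_num)
          nlinarith
        generalize e * 2 ^ j = ρ at hρ0 hBp hρσ hn2 hτρ heρ
        have hterm : ∀ v ∈ B, C1 * (R * X / (nv d v * τ) + R ^ 2 * X / nv d v ^ 2) ≤
            C1 * (R * X / (ρ * τ) + R ^ 2 * X / ρ ^ 2) := by
          intro v hv
          obtain ⟨-, -, h3, -⟩ := hBp v hv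
          refine mul_le_mul_of_nonneg_left (add_le_add ?_ ?_) hC1.le
          · exact div_le_div_of_nonneg_left (by positivity) (by positivity)
              (mul_le_mul_of_nonneg_right h3 hτ0.le)
          · exact div_le_div_of_nonneg_left (by positivity) (by positivity)
              (pow_le_pow_left₀ hρ0.le h3 2)
        calc ∑ v ∈ B, C1 * (R * X / (nv d v * τ) + R ^ 2 * X / nv d v ^ 2)
            ≤ ∑ v ∈ B, C1 * (R * X / (ρ * τ) + R ^ 2 * X / ρ ^ 2) := Finset.sum_le_sum hterm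
          _ = (B.card : ℝ) * (C1 * (R * X / (ρ * τ) + R ^ 2 * X / ρ ^ 2)) := by
              rw [Finset.sum_const, nsmul_eq_mul]
          _ ≤ (C2 * (R * (2 * ρ) / τ) * (1 + R * (2 * ρ) * τ / X)) *
              (C1 * (R * X / (ρ * τ) + R ^ 2 * X / ρ ^ 2)) :=
              mul_le_mul_of_nonneg_right hn2 (by positivity)
          _ = C1 * C2 * ((R * (2 * ρ) / τ) * (1 + R * (2 * ρ) * τ / X) *
              (R * X / (ρ * τ) + R ^ 2 * X / ρ ^ 2)) := by ring
          _ ≤ C1 * C2 * (4 * GG e R X (nv d s) τ) :=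
              mul_le_mul_of_nonneg_left (pr2_class hR1 hX he0 hτ0 heρ hρσ hτρ) (by positivity)
          _ = 4 * C1 * C2 * GG e R X (nv d s) τ := by ring
    calc _ ≤ ∑ _j ∈ Finset.range L, 4 * C1 * C2 * GG e R X (nv d s) τ := Finset.sum_le_sum hone
      _ = L * (4 * C1 * C2 * GG e R X (nv d s) τ) := by
          rw [Finset.sum_const, Finset.card_range, nsmul_eq_mul]
  have hL1 : (1 : ℝ) ≤ L := by exact_mod_cast hL
  calc (S.card : ℝ) ≤ ∑ v ∈ V, C1 * (R * X / (nv d v * τ) + R ^ 2 * X / nv d v ^ 2) := hcard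
    _ = ∑ v ∈ V.filter (fun v => InP x v),
          C1 * (R * X / (nv d v * τ) + R ^ 2 * X / nv d v ^ 2) +
        ∑ v ∈ V.filter (fun v => ¬ InP x v),
          C1 * (R * X / (nv d v * τ) + R ^ 2 * X / nv d v ^ 2) :=
        (Finset.sum_filter_add_sum_filter_not V (fun v => InP x v) _).symm
    _ ≤ 35 * C1 * GG e R X (nv d s) τ + L * (4 * C1 * C2 * GG e R X (nv d s) τ) :=
        add_le_add hA hB
    _ ≤ C1 * (35 + 4 * C2) * L * GG e R X (nv d s) τ := by
        have h1 : 35 * C1 * GG e R X (nv d s) τ ≤ L * (35 * C1 * GG e R X (nv d s) τ) :=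
          le_mul_of_one_le_left (by positivity) hL1
        linarith

end Pool.Helper13.R6
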