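import Pool.Agent.Helper67.R6.Fam

/-! Row SVD of the family sheet of rank six (MP_798d7d_nt): one prime. -/

set_option autoImplicit false

namespace Pool.Helper67.R6

section
variable {q : ℕ}

lemma svd_castU (F : Type) [CommRing F] (w : Par) :
    (fun k => ((U w k : ℤ) : F)) =
      U (((w.1.1 : F), (w.1.2 : F)), fun i => ((w.2 i : ℤ) : F)) := by
  funext k
  fin_cases k
  · show (((w.1.1 * w.2 3 - w.2 0 * w.1.2 : ℤ)) : F) =
      (w.1.1 : F) * ((w.2 3 : ℤ) : F) - ((w.2 0 : ℤ) : F) * (w.1.2 : F)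
    push_cast
    rfl
  · show (((w.1.1 * w.2 4 - w.2 1 * w.1.2 : ℤ)) : F) =
      (w.1.1 : F) * ((w.2 4 : ℤ) : F) - ((w.2 1 : ℤ) : F) * (w.1.2 : F)
    push_cast
    rfl
  · show (((4 * (w.1.1 * w.2 5 - w.2 2 * w.1.2) : ℤ)) : F) =
      4 * ((w.1.1 : F) * ((w.2 5 : ℤ) : F) - ((w.2 2 : ℤ) : F) * (w.1.2 : F))
    push_cast
    rfl

lemma svd_castV (F : Type) [CommRing F] (z : Fin 6 → ℤ) :
    (fun k => ((V z k : ℤ) : F)) = V (fun i => ((z i : ℤ) : F)) := by
  funext k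
  fin_cases k
  · show (((4 * (z 1 * z 5 - z 2 * z 4) : ℤ)) : F) =
      4 * (((z 1 : ℤ) : F) * ((z 5 : ℤ) : F) - ((z 2 : ℤ) : F) * ((z 4 : ℤ) : F))
    push_cast
    rfl
  · show (((5 * (z 0 * z 5 - z 2 * z 3) : ℤ)) : F) =
      5 * (((z 0 : ℤ) : F) * ((z 5 : ℤ) : F) - ((z 2 : ℤ) : F) * ((z 3 : ℤ) : F))
    push_cast
    rfl
  · show (((5 * (z 0 * z 4 - z 1 * z 3) : ℤ)) : F) =
      5 * (((z 0 : ℤ) : F) * ((z 4 : ℤ) : F) - ((z 1 : ℤ) : F) * ((z 3 : ℤ) : F))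
    push_cast
    rfl

lemma svd_castA (F : Type) [CommRing F] (u v : Fin 3 → ℤ) :
    ((qA u v : ℤ) : F) = qA (fun k => ((u k : ℤ) : F)) (fun k => ((v k : ℤ) : F)) := by
  unfold qA qa qb qc qd qe
  push_cast
  rfl

lemma svd_castB (F : Type) [CommRing F] (u v : Fin 3 → ℤ) :
    ((qB u v : ℤ) : F) = qB (fun k => ((u k : ℤ) : F)) (fun k => ((v k : ℤ) : F)) := by
  unfold qB qa qb qc qd qe
  push_cast
  rfl

lemma svd_MM (hq : q.Prime) (hQ : QQ < q) : ¬ (q : ℤ) ∣ MM := by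
  intro h
  have h10 : 10000 < q := hQ
  have h1 : (q : ℤ) ∣ ((14400 * QQ.factorial : ℕ) : ℤ) := by
    rw [Nat.cast_mul]
    exact h
  have h2 : q ∣ 14400 * QQ.factorial := Int.natCast_dvd_natCast.1 h1
  rcases (hq.dvd_mul).1 h2 with h3 | h3
  · have h4 : q ∣ 64 * 225 := h3
    rcases (hq.dvd_mul).1 h4 with h5 | h5
    · have := Nat.le_of_dvd (by norm_num) h5
      omega
    · have := Nat.le_of_dvd (by norm_num) h5
      omega
  · have := (hq.dvd_factorial).1 h3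
    omega

lemma svd_cong (m : ℕ) (T : (ℕ × ℕ) × (Fin 6 → ℕ)) : Cong (ww m T) := by
  refine ⟨?_, ?_, fun i => ?_⟩
  · show MM ∣ 1 + MM * (T.1.1 : ℤ) - 1
    exact ⟨(T.1.1 : ℤ), by ring⟩
  · show MM ∣ -1 + MM * (T.1.2 : ℤ) + 1
    exact ⟨(T.1.2 : ℤ), by ring⟩
  · show MM ∣ zb i + MM * (1000 * sh i * (m : ℤ) + (T.2 i : ℤ)) - zb i
    exact ⟨1000 * sh i * (m : ℤ) + (T.2 i : ℤ), by ring⟩

/-- the sequences modulo `q` -/
def sX (q : ℕ) (t : ℕ) : ZMod q := ((1 + MM * (t : ℤ) : ℤ) : ZMod q)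
def sY (q : ℕ) (t : ℕ) : ZMod q := ((-1 + MM * (t : ℤ) : ℤ) : ZMod q)
def sz (q m : ℕ) (i : Fin 6) (t : ℕ) : ZMod q :=
  ((zb i + MM * (1000 * sh i * (m : ℤ) + (t : ℤ)) : ℤ) : ZMod q)

end

lemma svd_mf {α : Type} {p : α → Prop} (inst : DecidablePred p) (s : Finset α) (a : α) :
    a ∈ @Finset.filter α p inst s ↔ a ∈ s ∧ p a := Finset.mem_filter

open Classical in
/-- the number of `(X, Y)` for one `z` -/
noncomputable def sN {F : Type} [Field F] (m : ℕ) (X Y : ℕ → F) (x : Fin 6 → ℕ → F)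
    (zt : Fin 6 → ℕ) : ℕ :=
  ((Finset.range m ×ˢ Finset.range m).filter (fun t =>
    qA (U ((X t.1, Y t.2), fun i => x i (zt i))) (V fun i => x i (zt i)) = 0 ∧
    qB (U ((X t.1, Y t.2), fun i => x i (zt i))) (V fun i => x i (zt i)) = 0)).card

open Classical in
/-- the count over a field -/
lemma svd_core (hSVA : ST_SVA) (hSVB : ST_SVB) (hSZ : ST_SZ) (hSVC : ST_SVC)
    (F : Type) [Field F] (h30 : (30 : F) ≠ 0) (h13 : (13 : F) ≠ 0) (m h : ℕ) (hhm : h ≤ m)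
    (X Y : ℕ → F) (x : Fin 6 → ℕ → F)
    (hX : ∀ r, ((Finset.range m).filter (fun t => X t = r)).card ≤ h)
    (hY : ∀ r, ((Finset.range m).filter (fun t => Y t = r)).card ≤ h)
    (hz : ∀ i r, ((Finset.range m).filter (fun t => x i t = r)).card ≤ h) :
    ∑ zt ∈ Fintype.piFinset fun _ : Fin 6 => Finset.range m, sN m X Y x zt ≤
      300 * m ^ 6 * h ^ 2 := by
  -- the count for one `z`
  have hN1 : ∀ zt : Fin 6 → ℕ, ¬ EX (V fun i => x i (zt i)) → sN m X Y x zt ≤ 171 * h ^ 2 := by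
    intro zt hne
    set S := (Finset.range m ×ˢ Finset.range m).filter (fun t : ℕ × ℕ =>
      qA (U ((X t.1, Y t.2), fun i => x i (zt i))) (V fun i => x i (zt i)) = 0 ∧
      qB (U ((X t.1, Y t.2), fun i => x i (zt i))) (V fun i => x i (zt i)) = 0)
      with hS
    have h1 : (S.image (fun t : ℕ × ℕ => (X t.1, Y t.2))).card ≤ 171 := by
      refine hSVA F h30 (fun i => x i (zt i)) hne _ ?_
      intro p hp
      obtain ⟨t, ht, rfl⟩ := Finset.mem_image.1 hp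
      exact (Finset.mem_filter.1 ht).2
    have h2 : S.card ≤ (h * h) * (S.image (fun t : ℕ × ℕ => (X t.1, Y t.2))).card := by
      refine Finset.card_le_mul_card_image S (h * h) ?_
      rintro ⟨r, r'⟩ -
      have h3 : S.filter (fun t : ℕ × ℕ => (X t.1, Y t.2) = (r, r')) ⊆
          ((Finset.range m).filter (fun t => X t = r)) ×ˢ
            ((Finset.range m).filter (fun t => Y t = r')) := by
        intro t ht
        obtain ⟨h4, h5⟩ := Finset.mem_filter.1 ht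
        obtain ⟨h6, -⟩ := Finset.mem_filter.1 h4
        obtain ⟨h7, h8⟩ := Finset.mem_product.1 h6
        obtain ⟨h9, h11⟩ := Prod.mk.inj h5
        exact Finset.mem_product.2 ⟨Finset.mem_filter.2 ⟨h7, h9⟩, Finset.mem_filter.2 ⟨h8, h11⟩⟩
      refine (Finset.card_le_card h3).trans ?_
      rw [Finset.card_product]
      exact Nat.mul_le_mul (hX r) (hY r')
    have h3 : sN m X Y x zt = S.card := rfl
    rw [h3]
    calc S.card ≤ (h * h) * (S.image (fun t : ℕ × ℕ => (X t.1, Y t.2))).card := h2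
      _ ≤ (h * h) * 171 := Nat.mul_le_mul_left _ h1
      _ = 171 * h ^ 2 := by ring
  have hN2 : ∀ zt : Fin 6 → ℕ, (V fun i => x i (zt i)) ≠ 0 → sN m X Y x zt ≤ 6 * m * h := by
    intro zt hne
    obtain ⟨P, hP0, hPd, hP⟩ := hSVB F h30 h13 (fun i => x i (zt i)) hne
    refine le_trans (Finset.card_le_card ?_) (hSZ F m h 6 X Y hX hY P hP0 hPd)
    intro t ht
    obtain ⟨h1, h2, h3⟩ := Finset.mem_filter.1 ht
    exact Finset.mem_filter.2 ⟨h1, hP _ _ h2 h3⟩
  have hN3 : ∀ zt : Fin 6 → ℕ, sN m X Y x zt ≤ m ^ 2 := by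
    intro zt
    refine (Finset.card_filter_le _ _).trans ?_
    rw [Finset.card_product, Finset.card_range, sq]
  obtain ⟨hE, hV⟩ := hSVC F h30 m h x hhm hz
  set PF : Finset (Fin 6 → ℕ) := Fintype.piFinset fun _ => Finset.range m with hPF
  have hPFc : PF.card = m ^ 6 := by
    rw [hPF, Fintype.card_piFinset]
    simp
  have hone : ∀ zt ∈ PF, sN m X Y x zt ≤ 171 * h ^ 2 +
      (if EX (V fun i => x i (zt i)) then 6 * m * h else 0) +
      (if (V fun i => x i (zt i)) = 0 then m ^ 2 else 0) := by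
    intro zt _
    by_cases h1 : EX (V fun i => x i (zt i))
    · by_cases h2 : (V fun i => x i (zt i)) = 0
      · rw [if_pos h1, if_pos h2]
        have := hN3 zt
        omega
      · rw [if_pos h1, if_neg h2]
        have := hN2 zt h2
        omega
    · rw [if_neg h1]
      have := hN1 zt h1
      omega
  have hsum : ∑ zt ∈ PF, sN m X Y x zt ≤ m ^ 6 * (171 * h ^ 2) +
      (16 * m ^ 5 * h) * (6 * m * h) + (4 * m ^ 4 * h ^ 2) * m ^ 2 := by
    refine (Finset.sum_le_sum hone).trans ?_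
    rw [Finset.sum_add_distrib, Finset.sum_add_distrib, Finset.sum_const, smul_eq_mul, hPFc,
      ← Finset.sum_filter, ← Finset.sum_filter, Finset.sum_const, Finset.sum_const, smul_eq_mul,
      smul_eq_mul]
    refine Nat.add_le_add (Nat.add_le_add_left ?_ _) ?_
    · exact Nat.mul_le_mul_right _ hE
    · exact Nat.mul_le_mul_right _ hV
  refine hsum.trans ?_
  have h1 : m ^ 6 * (171 * h ^ 2) + (16 * m ^ 5 * h) * (6 * m * h) +
      (4 * m ^ 4 * h ^ 2) * m ^ 2 = 271 * (m ^ 6 * h ^ 2) := by ring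
  rw [h1]
  calc 271 * (m ^ 6 * h ^ 2) ≤ 300 * (m ^ 6 * h ^ 2) := Nat.mul_le_mul_right _ (by norm_num)
    _ = 300 * m ^ 6 * h ^ 2 := by ring

theorem st_SVD (hREL : ST_REL) (hRCL : ST_RCL) (hSVA : ST_SVA) (hSVB : ST_SVB) (hSZ : ST_SZ)
    (hSVC : ST_SVC) : ST_SVD := by
  classical
  intro m q hm hq hQ
  have : Fact q.Prime := ⟨hq⟩
  have h10 : 10000 < q := hQ
  have hMM := svd_MM hq hQ
  have hhm : m / q + 1 ≤ m := by
    have h1 : m / q ≤ m / 2 := Nat.div_le_div_left (by omega) (by norm_num)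
    rcases Nat.lt_or_ge m 2 with h2 | h2
    · have h3 : m / q = 0 := Nat.div_eq_of_lt (by omega)
      omega
    · omega
  have hnat : ∀ n : ℕ, 0 < n → n < q → ((n : ℕ) : ZMod q) ≠ 0 := by
    intro n hn hnq h0
    have h1 : q ∣ n := (ZMod.natCast_eq_zero_iff n q).1 h0
    have := Nat.le_of_dvd hn h1
    omega
  have h30 : (30 : ZMod q) ≠ 0 := by
    have := hnat 30 (by norm_num) (by omega)
    exact_mod_cast this
  have h13 : (13 : ZMod q) ≠ 0 := by
    have := hnat 13 (by norm_num) (by omega)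
    exact_mod_cast this
  -- divisibility modulo `q`
  have hkey : ∀ T : (ℕ × ℕ) × (Fin 6 → ℕ), (q : ℤ) ∣ aA (ww m T) → (q : ℤ) ∣ aB (ww m T) →
      qA (U ((sX q T.1.1, sY q T.1.2), fun i => sz q m i (T.2 i)))
        (V fun i => sz q m i (T.2 i)) = 0 ∧
      qB (U ((sX q T.1.1, sY q T.1.2), fun i => sz q m i (T.2 i)))
        (V fun i => sz q m i (T.2 i)) = 0 := by
    intro T h1 h2
    obtain ⟨-, -, -, ⟨h3, h4⟩, -⟩ := hREL (ww m T) (svd_cong m T)
    have h1' : ((aA (ww m T) : ℤ) : ZMod q) = 0 := (ZMod.intCast_zmod_eq_zero_iff_dvd _ _).2 h1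
    have h2' : ((aB (ww m T) : ℤ) : ZMod q) = 0 := (ZMod.intCast_zmod_eq_zero_iff_dvd _ _).2 h2
    have hA : ((qA (U (ww m T)) (V (ww m T).2) : ℤ) : ZMod q) = 0 := by
      have h5 : qA (U (ww m T)) (V (ww m T).2) = -(691200 * aA (ww m T)) := by
        rw [h3, neg_neg]
      rw [h5, Int.cast_neg, Int.cast_mul, h1', mul_zero, neg_zero]
    have hB : ((qB (U (ww m T)) (V (ww m T).2) : ℤ) : ZMod q) = 0 := by
      rw [← h4, Int.cast_mul, h2', mul_zero]
    rw [svd_castA, svd_castU, svd_castV] at hA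
    rw [svd_castB, svd_castU, svd_castV] at hB
    exact ⟨hA, hB⟩
  refine le_trans ?_ (svd_core hSVA hSVB hSZ hSVC (ZMod q) h30 h13 m (m / q + 1) hhm
    (sX q) (sY q) (sz q m) ?_ ?_ ?_)
  · rw [Finset.card_filter]
    show ∑ T ∈ (Finset.range m ×ˢ Finset.range m) ×ˢ
      (Fintype.piFinset fun _ : Fin 6 => Finset.range m),
      (if (q : ℤ) ∣ aA (ww m T) ∧ (q : ℤ) ∣ aB (ww m T) then 1 else 0) ≤ _
    rw [Finset.sum_product_right]
    refine Finset.sum_le_sum fun zt _ => ?_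
    rw [← Finset.card_filter]
    refine Finset.card_le_card ?_
    intro t ht
    obtain ⟨h1, h2, h3⟩ := (svd_mf _ _ _).1 ht
    exact (svd_mf _ _ _).2 ⟨h1, hkey (t, zt) h2 h3⟩
  · intro r
    refine le_trans (Finset.card_le_card ?_) (hRCL q m 1 MM hq hMM r)
    intro t ht
    have ht' := (svd_mf _ _ _).1 ht
    exact (svd_mf _ _ _).2 ht'
  · intro r
    refine le_trans (Finset.card_le_card ?_) (hRCL q m (-1) MM hq hMM r)
    intro t ht
    have ht' := (svd_mf _ _ _).1 ht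
    exact (svd_mf _ _ _).2 ht'
  · intro i r
    refine le_trans (Finset.card_le_card ?_)
      (hRCL q m (zb i + MM * (1000 * sh i * (m : ℤ))) MM hq hMM r)
    intro t ht
    have ht' := (svd_mf _ _ _).1 ht
    refine (svd_mf _ _ _).2 ⟨ht'.1, ?_⟩
    rw [← ht'.2]
    unfold sz
    congr 1
    ring

end Pool.Helper67.R6
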